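import Mathlib
import Pool.Agent.H589R3.DT.Props

set_option autoImplicit false

/-!
Random permutations: the union bound, and the permutations that preserve a function.
-/

open scoped Classical
open Finset

namespace Pool.Agent.D0H37.DA

open H589DT

/-- permutations such that every labelling satisfies fewer than `K` constraints -/
theorem exists_perms (n D p d K m : ℕ) [NeZero p] (φ : Fin n → Fin D → Fin n)
    (B : Finset (Fin n)) (G : Finset (Equiv.Perm (ZMod p))) (hG : 0 < G.card)
    (hm : ∀ a y : ZMod p, (G.filter fun σ => σ a = y).card * m ≤ G.card)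
    (h : (d * p ^ 2) ^ n * 2 ^ (D * n) < m ^ K) :
    ∃ σ : Fin n → Fin D → Equiv.Perm (ZMod p), (∀ w i, σ w i ∈ G) ∧
      ∀ (x : Fin n → ZMod p × Fin d) (y : Fin n → ZMod p),
        (univ.filter fun e : Fin n × Fin D => e.1 ∉ B ∧
          σ e.1 e.2 ((x e.1).1 - ((e.2 : ℕ) : ZMod p) * (((x e.1).2 : ℕ) : ZMod p))
            = y (φ e.1 e.2)).card < K := by
  by_contra hcon
  push Not at hcon
  -- the argument
  obtain ⟨f, hf⟩ : ∃ f : (Fin n → ZMod p × Fin d) → (Fin n × Fin D) → ZMod p,
    f = fun x e => (x e.1).1 - ((e.2 : ℕ) : ZMod p) * (((x e.1).2 : ℕ) : ZMod p) := ⟨_, rfl⟩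
  obtain ⟨I, hI⟩ : ∃ I : Finset ((Fin n → ZMod p × Fin d) × (Fin n → ZMod p) ×
      Finset (Fin n × Fin D)), I = univ ×ˢ (univ ×ˢ powersetCard K univ) := ⟨_, rfl⟩
  obtain ⟨F, hF⟩ : ∃ F : ((Fin n → ZMod p × Fin d) × (Fin n → ZMod p) ×
      Finset (Fin n × Fin D)) → Finset ((Fin n × Fin D) → Equiv.Perm (ZMod p)), F = fun q =>
    Fintype.piFinset (fun e => if e ∈ q.2.2 then
      (G.filter fun σ => σ (f q.1 e) = q.2.1 (φ e.1 e.2)) else G) := ⟨_, rfl⟩
  have hcov : (Fintype.piFinset fun _ : Fin n × Fin D => G) ⊆ I.biUnion F := by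
    intro s hs
    rw [Fintype.mem_piFinset] at hs
    obtain ⟨x, y, hxy⟩ := hcon (fun w i => s (w, i)) fun w i => hs (w, i)
    obtain ⟨T, hT, hTc⟩ := Finset.exists_subset_card_eq hxy
    rw [Finset.mem_biUnion]
    refine ⟨(x, y, T), ?_, ?_⟩
    · rw [hI]
      simp only [Finset.mem_product, Finset.mem_univ, true_and, Finset.mem_powersetCard]
      exact ⟨Finset.subset_univ _, hTc⟩
    · rw [hF]
      simp only [Fintype.mem_piFinset]
      intro e
      split_ifs with he
      · have h1 := hT he
        rw [Finset.mem_filter] at h1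
        rw [Finset.mem_filter, hf]
        exact ⟨hs e, h1.2.2⟩
      · exact hs e
  have hFc : ∀ q ∈ I, (F q).card * m ^ K ≤ G.card ^ (n * D) := by
    intro q hq
    rw [hI] at hq
    simp only [Finset.mem_product, Finset.mem_univ, true_and, Finset.mem_powersetCard] at hq
    have h1 : m ^ K = ∏ e : Fin n × Fin D, if e ∈ q.2.2 then m else 1 := by
      rw [Finset.prod_ite, Finset.prod_const_one, mul_one, Finset.prod_const,
        Finset.filter_mem_eq_inter, Finset.univ_inter, hq.2]
    have h2 : G.card ^ (n * D) = ∏ _e : Fin n × Fin D, G.card := by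
      rw [Finset.prod_const, Finset.card_univ, Fintype.card_prod, Fintype.card_fin,
        Fintype.card_fin]
    rw [hF]
    simp only
    rw [Fintype.card_piFinset, h1, h2, ← Finset.prod_mul_distrib]
    refine Finset.prod_le_prod' fun e _ => ?_
    split_ifs with he
    · exact hm _ _
    · rw [mul_one]
  have h1 : (Fintype.piFinset fun _ : Fin n × Fin D => G).card ≤ ∑ q ∈ I, (F q).card :=
    (Finset.card_le_card hcov).trans Finset.card_biUnion_le
  have h2 : (Fintype.piFinset fun _ : Fin n × Fin D => G).card = G.card ^ (n * D) := by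
    rw [Fintype.card_piFinset, Finset.prod_const, Finset.card_univ, Fintype.card_prod,
      Fintype.card_fin, Fintype.card_fin]
  have h3 : I.card ≤ (d * p ^ 2) ^ n * 2 ^ (D * n) := by
    rw [hI, Finset.card_product, Finset.card_product, Finset.card_univ, Finset.card_univ,
      Fintype.card_fun, Fintype.card_fun, Fintype.card_prod, ZMod.card, Fintype.card_fin,
      Fintype.card_fin]
    have h4 : (powersetCard K (univ : Finset (Fin n × Fin D))).card ≤ 2 ^ (D * n) := by
      refine (Finset.card_le_card (Finset.subset_univ _)).trans (le_of_eq ?_)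
      rw [Finset.card_univ, Fintype.card_finset, Fintype.card_prod, Fintype.card_fin,
        Fintype.card_fin, mul_comm]
    calc (p * d) ^ n * (p ^ n * (powersetCard K (univ : Finset (Fin n × Fin D))).card)
        ≤ (p * d) ^ n * (p ^ n * 2 ^ (D * n)) := by gcongr
      _ = (d * p ^ 2) ^ n * 2 ^ (D * n) := by
        rw [← mul_assoc, ← mul_pow]
        congr 2
        ring
  have hpos : 0 < G.card ^ (n * D) := Nat.pow_pos hG
  have h5 : G.card ^ (n * D) * m ^ K ≤ G.card ^ (n * D) * ((d * p ^ 2) ^ n * 2 ^ (D * n)) := by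
    calc G.card ^ (n * D) * m ^ K ≤ (∑ q ∈ I, (F q).card) * m ^ K := by
          rw [← h2]; exact Nat.mul_le_mul_right _ h1
      _ = ∑ q ∈ I, (F q).card * m ^ K := by rw [Finset.sum_mul]
      _ ≤ ∑ _q ∈ I, G.card ^ (n * D) := Finset.sum_le_sum hFc
      _ = I.card * G.card ^ (n * D) := by rw [Finset.sum_const, smul_eq_mul]
      _ ≤ ((d * p ^ 2) ^ n * 2 ^ (D * n)) * G.card ^ (n * D) := Nat.mul_le_mul_right _ h3
      _ = _ := mul_comm _ _
  have h6 := Nat.le_of_mul_le_mul_left h5 hpos
  omega

/-- the permutations that preserve `g` -/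
noncomputable def pres {X : Type} [Fintype X] (g : X → ℤ) : Finset (Equiv.Perm X) :=
  univ.filter fun σ => ∀ x, g (σ x) = g x

theorem pres_key {X : Type} [Fintype X] (g : X → ℤ) (m : ℕ)
    (hm : ∀ a, m ≤ (univ.filter fun c => g c = g a).card) (a y : X) :
    ((pres g).filter fun σ => σ a = y).card * m ≤ (pres g).card := by
  by_cases hay : g y = g a
  · have h1 : (((pres g).filter fun σ => σ a = y) ×ˢ (univ.filter fun c => g c = g a)).card ≤
        (pres g).card := by
      refine Finset.card_le_card_of_injOn (fun q => q.1.trans (Equiv.swap y q.2)) ?_ ?_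
      · rintro ⟨σ, c⟩ hq
        rw [mem_coe, mem_product, mem_filter, mem_filter] at hq
        obtain ⟨⟨hσ, _⟩, _, hc⟩ := hq
        unfold pres at hσ ⊢
        rw [mem_filter] at hσ
        rw [mem_coe, mem_filter]
        refine ⟨mem_univ _, fun x => ?_⟩
        simp only at hσ hc ⊢
        rw [Equiv.trans_apply, ← hσ.2 x]
        by_cases h1 : σ x = y
        · rw [h1, Equiv.swap_apply_left, hc, hay]
        · by_cases h2 : σ x = c
          · rw [h2, Equiv.swap_apply_right, hc, hay]
          · rw [Equiv.swap_apply_of_ne_of_ne h1 h2]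
      · rintro ⟨σ, c⟩ hq ⟨σ', c'⟩ hq' he
        rw [mem_coe, mem_product, mem_filter, mem_filter] at hq hq'
        have h1 : (σ.trans (Equiv.swap y c)) a = (σ'.trans (Equiv.swap y c')) a := by
          simp only at he
          rw [he]
        have h2 : σ a = y := hq.1.2
        have h3 : σ' a = y := hq'.1.2
        rw [Equiv.trans_apply, Equiv.trans_apply, h2, h3, Equiv.swap_apply_left,
          Equiv.swap_apply_left] at h1
        subst h1
        refine Prod.ext ?_ rfl
        simp only at he ⊢
        ext x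
        have h4 := congrArg (fun τ : Equiv.Perm X => τ x) he
        simp only [Equiv.trans_apply] at h4
        exact (Equiv.swap y c).injective h4
    rw [card_product] at h1
    exact (Nat.mul_le_mul_left _ (hm a)).trans h1
  · have h1 : ((pres g).filter fun σ => σ a = y) = ∅ := by
      rw [filter_eq_empty_iff]
      intro σ hσ h2
      unfold pres at hσ
      rw [mem_filter] at hσ
      apply hay
      rw [← h2, hσ.2 a]
    rw [h1, card_empty, zero_mul]
    exact Nat.zero_le _

theorem pres_pos {X : Type} [Fintype X] (g : X → ℤ) : 0 < (pres g).card := by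
  refine card_pos.2 ⟨Equiv.refl X, ?_⟩
  unfold pres
  rw [mem_filter]
  exact ⟨mem_univ _, fun _ => rfl⟩

/-- the function `1`, `-1` -/
def hh (p : ℕ) (x : ZMod p) : ℤ := if x.val % 2 = 0 then 1 else -1

theorem hh_values (p : ℕ) (x : ZMod p) : hh p x = 1 ∨ hh p x = -1 := by
  unfold hh
  split_ifs
  · exact Or.inl rfl
  · exact Or.inr rfl

theorem val_filter (p : ℕ) [NeZero p] (P : ℕ → Prop) [DecidablePred P] :
    (univ.filter fun x : ZMod p => P x.val).card = ((range p).filter P).card := by
  refine Finset.card_bij (fun x _ => x.val) ?_ ?_ ?_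
  · intro x hx
    rw [mem_filter] at hx ⊢
    exact ⟨mem_range.2 (ZMod.val_lt x), hx.2⟩
  · intro x _ y _ h
    exact ZMod.val_injective p h
  · intro k hk
    rw [mem_filter, mem_range] at hk
    refine ⟨(k : ZMod p), ?_, ZMod.val_cast_of_lt hk.1⟩
    rw [mem_filter, ZMod.val_cast_of_lt hk.1]
    exact ⟨mem_univ _, hk.2⟩

theorem even_range (m : ℕ) : ((range (2 * m + 1)).filter fun k => k % 2 = 0).card = m + 1 ∧
    ((range (2 * m + 1)).filter fun k => ¬ k % 2 = 0).card = m := by
  induction m with
  | zero => constructor <;> decide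
  | succ m ih =>
    have h1 : range (2 * (m + 1) + 1) = insert (2 * m + 2) (insert (2 * m + 1)
        (range (2 * m + 1))) := by
      ext k
      simp only [mem_range, mem_insert]
      omega
    have h2 : (2 * m + 2) % 2 = 0 := by omega
    have h3 : ¬ (2 * m + 1) % 2 = 0 := by omega
    rw [h1]
    constructor
    · rw [filter_insert, if_pos h2, filter_insert, if_neg h3, card_insert_of_notMem, ih.1]
      simp
    · rw [filter_insert, if_neg (not_not.2 h2), filter_insert, if_pos h3, card_insert_of_notMem,
        ih.2]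
      simp

theorem hh_class (p m : ℕ) [NeZero p] (hp : p = 2 * m + 1) (a : ZMod p) :
    m ≤ (univ.filter fun c => hh p c = hh p a).card := by
  by_cases h : a.val % 2 = 0
  · have h1 : (univ.filter fun c => hh p c = hh p a) =
        (univ.filter fun x : ZMod p => x.val % 2 = 0) := by
      ext c
      simp only [mem_filter, mem_univ, true_and]
      unfold hh
      rw [if_pos h]
      split_ifs with hc
      · simp [hc]
      · simp [hc]
    rw [h1, val_filter p fun k => k % 2 = 0, hp, (even_range m).1]
    omega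
  · have h1 : (univ.filter fun c => hh p c = hh p a) =
        (univ.filter fun x : ZMod p => ¬ x.val % 2 = 0) := by
      ext c
      simp only [mem_filter, mem_univ, true_and]
      unfold hh
      rw [if_neg h]
      split_ifs with hc
      · simp [hc]
      · simp [hc]
    rw [h1, val_filter p fun k => ¬ k % 2 = 0, hp, (even_range m).2]

theorem hh_sum (p m : ℕ) [NeZero p] (hp : p = 2 * m + 1) : ∑ x : ZMod p, hh p x = 1 := by
  unfold hh
  rw [Finset.sum_ite, sum_const, sum_const, val_filter p fun k => k % 2 = 0,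
    val_filter p fun k => ¬ k % 2 = 0, hp, (even_range m).1, (even_range m).2]
  simp

end Pool.Agent.D0H37.DA
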