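import Pool.Agent.D0H37.DA.Graph
import Pool.Agent.D0H37.DA.Count
import Pool.Agent.D0H57.DT1.Cnf

set_option autoImplicit false

/-!
The games of permutations.
-/

open scoped Classical
open Finset

namespace Pool.Agent.D0H37.DA

open H589DT H589DT.MX Pool.Agent.D0H57.DT1

section

variable {n D p : ℕ} [NeZero p]

/-- the constraint map with coefficient `i` and permutation `π` -/
noncomputable def pmap (p d : ℕ) [NeZero p] (i : ZMod p) (π : Equiv.Perm (ZMod p)) :
    Fin (d * p) → Fin p :=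
  fun b => eV p (π (lin i ((eW p d).symm b)))

/-- all fibres have `d` elements -/
theorem pmap_fib (d : ℕ) (i : ZMod p) (π : Equiv.Perm (ZMod p)) (a : Fin p) :
    (univ.filter fun b => pmap p d i π b = a).card = d := by
  have h1 := card_fib (d := d) i ({π.symm ((eV p).symm a)} : Finset (ZMod p))
  rw [card_singleton, one_mul] at h1
  refine Eq.trans ?_ h1
  refine Finset.card_bij' (fun b _ => (eW p d).symm b) (fun c _ => eW p d c) ?_ ?_ ?_ ?_
  · intro b hb
    rw [mem_filter] at hb ⊢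
    refine ⟨mem_univ _, ?_⟩
    rw [mem_singleton, ← hb.2]
    unfold pmap
    rw [Equiv.symm_apply_apply, Equiv.symm_apply_apply]
  · intro c hc
    rw [mem_filter, mem_singleton] at hc
    rw [mem_filter]
    refine ⟨mem_univ _, ?_⟩
    unfold pmap
    rw [Equiv.symm_apply_apply, hc.2, Equiv.apply_symm_apply, Equiv.apply_symm_apply]
  · intro b _
    exact (eW p d).apply_symm_apply b
  · intro c _
    exact (eW p d).symm_apply_apply c

/-- the game of `φ`, `B` and the permutations `σ` -/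
noncomputable def pgm (d : ℕ) (φ : Fin n → Fin D → Fin n) (B : Finset (Fin n))
    (σ : Fin n → Fin D → Equiv.Perm (ZMod p)) : DGame (Fin n) (Fin n) d p where
  adj v w := ∃ i, w ∉ B ∧ φ w i = v
  map v w := if h : ∃ i, φ w i = v then
    pmap p d (((Classical.choose h : Fin D) : ℕ) : ZMod p) (σ w (Classical.choose h)) else
    pmap p d 0 (Equiv.refl _)
  fib v w _ a := by
    split_ifs
    · exact (pmap_fib _ _ _ a).le
    · exact (pmap_fib _ _ _ a).le

theorem pgm_map {d : ℕ} {φ : Fin n → Fin D → Fin n} {B : Finset (Fin n)}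
    (hφ : ∀ w i j, w ∉ B → φ w i = φ w j → i = j) (σ : Fin n → Fin D → Equiv.Perm (ZMod p))
    (w : Fin n) (i : Fin D) (hw : w ∉ B) :
    (pgm d φ B σ).map (φ w i) w = pmap p d ((i : ℕ) : ZMod p) (σ w i) := by
  have h : ∃ j, φ w j = φ w i := ⟨i, rfl⟩
  show (if h : ∃ j, φ w j = φ w i then
    pmap p d (((Classical.choose h : Fin D) : ℕ) : ZMod p) (σ w (Classical.choose h)) else
    pmap p d 0 (Equiv.refl _)) = _
  rw [dif_pos h, hφ w _ i hw (Classical.choose_spec h)]

/-- edges -/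
theorem pgm_edges {d : ℕ} {φ : Fin n → Fin D → Fin n} {B : Finset (Fin n)}
    (hφ : ∀ w i j, w ∉ B → φ w i = φ w j → i = j) (σ : Fin n → Fin D → Equiv.Perm (ZMod p)) :
    (univ.filter fun e : Fin n × Fin n => (pgm d φ B σ).adj e.1 e.2).card =
      Fintype.card (EE D B) := by
  symm
  rw [← card_univ]
  refine Finset.card_bij (fun e _ => (φ e.1.1 e.1.2, e.1.1)) ?_ ?_ ?_
  · intro e _
    rw [mem_filter]
    exact ⟨mem_univ _, e.1.2, e.2, rfl⟩
  · rintro ⟨⟨w, i⟩, hw⟩ _ ⟨⟨w', i'⟩, hw'⟩ _ h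
    have h1 := Prod.mk.inj h
    obtain ⟨h2, h3⟩ := h1
    simp only at h2 h3
    subst h3
    have := hφ w i i' hw h2
    subst this
    rfl
  · rintro ⟨v, w⟩ h
    rw [mem_filter] at h
    obtain ⟨_, i, hw, hv⟩ := h
    exact ⟨⟨(w, i), hw⟩, mem_univ _, Prod.ext hv rfl⟩

/-- satisfied edges -/
theorem pgm_sat {d : ℕ} {φ : Fin n → Fin D → Fin n} {B : Finset (Fin n)}
    (hφ : ∀ w i j, w ∉ B → φ w i = φ w j → i = j) (σ : Fin n → Fin D → Equiv.Perm (ZMod p))
    (A : Fin n → Fin p) (M : Fin n → Fin (d * p)) :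
    (univ.filter fun e : Fin n × Fin n => (pgm d φ B σ).adj e.1 e.2 ∧
      (pgm d φ B σ).map e.1 e.2 (M e.2) = A e.1).card ≤
    (univ.filter fun e : Fin n × Fin D => e.1 ∉ B ∧
      σ e.1 e.2 (((eW p d).symm (M e.1)).1 -
        ((e.2 : ℕ) : ZMod p) * ((((eW p d).symm (M e.1)).2 : ℕ) : ZMod p))
        = (eV p).symm (A (φ e.1 e.2))).card := by
  have h : (univ.filter fun e : Fin n × Fin n => (pgm d φ B σ).adj e.1 e.2 ∧
      (pgm d φ B σ).map e.1 e.2 (M e.2) = A e.1) ⊆
    (univ.filter fun e : Fin n × Fin D => e.1 ∉ B ∧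
      σ e.1 e.2 (((eW p d).symm (M e.1)).1 -
        ((e.2 : ℕ) : ZMod p) * ((((eW p d).symm (M e.1)).2 : ℕ) : ZMod p))
        = (eV p).symm (A (φ e.1 e.2))).image fun e => (φ e.1 e.2, e.1) := by
    rintro ⟨v, w⟩ he
    rw [mem_filter] at he
    obtain ⟨_, ⟨i, hw, hv⟩, hs⟩ := he
    simp only at hw hv hs
    rw [mem_image]
    refine ⟨(w, i), ?_, Prod.ext hv rfl⟩
    rw [mem_filter]
    refine ⟨mem_univ _, hw, ?_⟩
    rw [← hv, pgm_map hφ σ w i hw] at hs
    show σ w i (((eW p d).symm (M w)).1 -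
        ((i : ℕ) : ZMod p) * ((((eW p d).symm (M w)).2 : ℕ) : ZMod p)) = (eV p).symm (A (φ w i))
    rw [← hs]
    unfold pmap
    rw [Equiv.symm_apply_apply]
    rfl
  exact (card_le_card h).trans card_image_le

/-- the labellings of the constraint graph give labellings of the game -/
theorem pgm_satE {d : ℕ} {φ : Fin n → Fin D → Fin n} {B : Finset (Fin n)}
    (hφ : ∀ w i j, w ∉ B → φ w i = φ w j → i = j) (σ : Fin n → Fin D → Equiv.Perm (ZMod p))
    {S : Finset (Fin n ⊕ Fin n)} {ρ : Fin n ⊕ Fin n → ZMod p × Fin d}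
    (h : (pg d φ B σ).SatOn S ρ) (v w : Fin n) (hv : Sum.inl v ∈ S)
    (hw : Sum.inr w ∈ S) (ha : (pgm d φ B σ).adj v w) :
    (pgm d φ B σ).map v w (eW p d (ρ (Sum.inr w))) = eV p (ρ (Sum.inl v)).1 := by
  obtain ⟨i, hwB, hi⟩ := ha
  subst hi
  rw [pgm_map hφ σ w i hwB]
  have h1 : σ w i (lin (((i : ℕ) : ZMod p)) (ρ (Sum.inr w))) = (ρ (Sum.inl (φ w i))).1 :=
    h ⟨(w, i), hwB⟩ (mem_ein.2 ⟨hv, hw⟩)
  unfold pmap
  rw [Equiv.symm_apply_apply, h1]

/-- all fibres have `d` elements -/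
theorem pgm_fib {d : ℕ} {φ : Fin n → Fin D → Fin n} {B : Finset (Fin n)}
    (σ : Fin n → Fin D → Equiv.Perm (ZMod p)) (v w : Fin n) (a : Fin p) :
    (univ.filter fun b => (pgm d φ B σ).map v w b = a).card = d := by
  unfold pgm
  simp only
  split_ifs
  · exact pmap_fib _ _ _ a
  · exact pmap_fib _ _ _ a

/-- the integral affine solution, left -/
noncomputable def ax (p : ℕ) [NeZero p] (a : Fin p) : ℤ := hh p ((eV p).symm a)

/-- the integral affine solution, right -/
noncomputable def ay (p d : ℕ) [NeZero p] (b : Fin (d * p)) : ℤ :=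
  if (((eW p d).symm b).2 : ℕ) = 0 then hh p ((eW p d).symm b).1 else 0

theorem ax_sum (m : ℕ) (hp : p = 2 * m + 1) : ∑ a, ax p a = 1 := by
  rw [← hh_sum p m hp]
  exact Fintype.sum_equiv (eV p).symm _ _ fun a => rfl

theorem ay_map (d : ℕ) (hd : 1 ≤ d) (i : ZMod p) (π : Equiv.Perm (ZMod p))
    (hπ : ∀ x, hh p (π x) = hh p x) (a : Fin p) :
    ∑ b ∈ univ.filter (fun b => pmap p d i π b = a), ay p d b = ax p a := by
  obtain ⟨c, hc⟩ : ∃ c : ZMod p × Fin d, c = (π.symm ((eV p).symm a), ⟨0, hd⟩) := ⟨_, rfl⟩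
  rw [Finset.sum_eq_single (eW p d c)]
  · unfold ay ax
    rw [Equiv.symm_apply_apply, hc]
    simp only [if_true]
    rw [← hπ, Equiv.apply_symm_apply]
  · intro b hb hne
    rw [mem_filter] at hb
    unfold ay
    split_ifs with h0
    · exfalso
      apply hne
      rw [hc, ← (eW p d).apply_symm_apply b]
      congr 1
      have h1 : ((eW p d).symm b).2 = ⟨0, hd⟩ := Fin.ext h0
      refine Prod.ext ?_ h1
      have h2 := hb.2
      unfold pmap lin at h2
      rw [h0] at h2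
      simp only [Nat.cast_zero, mul_zero, sub_zero] at h2
      rw [← h2, Equiv.symm_apply_apply, Equiv.symm_apply_apply]
    · rfl
  · intro hb
    exfalso
    apply hb
    rw [mem_filter]
    refine ⟨mem_univ _, ?_⟩
    unfold pmap lin
    rw [Equiv.symm_apply_apply, hc]
    simp

end

end Pool.Agent.D0H37.DA
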