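import Pool.Agent.H589R3.DT.MX
import Pool.Agent.H589R3.DT.Asm

set_option autoImplicit false

/-!
Constraint graphs with permutations of `ZMod p`: mixing along walks.
-/

open scoped Classical
open Finset

namespace Pool.Agent.D0H37.DA

open H589DT H589DT.MX

/-- the constraint graph given by `φ`, `B` and the permutations `σ`: the edge `(w, i)` joins
`φ w i` and `w`, and its constraint is `σ w i (b.1 - i * b.2) = a.1` -/
def pg {n D p : ℕ} (d : ℕ) (φ : Fin n → Fin D → Fin n) (B : Finset (Fin n))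
    (σ : Fin n → Fin D → Equiv.Perm (ZMod p)) :
    CGraph (Fin n ⊕ Fin n) (EE D B) (ZMod p × Fin d) where
  src e := Sum.inl (φ e.1.1 e.1.2)
  tgt e := Sum.inr e.1.1
  ne _ := Sum.inl_ne_inr
  rel e a b := σ e.1.1 e.1.2 (lin (((e.1.2 : ℕ) : ZMod p)) b) = a.1

variable {p d : ℕ}

theorem growp [Fact p.Prime] (hd : 2 ≤ d) (i j : ZMod p) (hij : i ≠ j)
    (R : Finset (ZMod p × Fin d)) (hne : R.Nonempty)
    (hR : ∀ b b', b ∈ R → lin i b = lin i b' → b' ∈ R)
    (i' : ZMod p) (π : Equiv.Perm (ZMod p)) (R' : Finset (ZMod p × Fin d))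
    (hR' : ∀ b', b' ∈ R' ↔ ∃ b ∈ R, lin i' b' = π (lin j b)) :
    R = univ ∨ R.card < R'.card := by
  by_contra hcon
  push Not at hcon
  obtain ⟨hnu, hle⟩ := hcon
  apply hnu
  set V : Finset (ZMod p) := R.image (lin j) with hV
  set V' : Finset (ZMod p) := V.image π with hV'
  have hcV : V'.card = V.card := card_image_of_injective _ π.injective
  have hR'e : R' = univ.filter fun b : ZMod p × Fin d => lin i' b ∈ V' := by
    ext b'
    rw [hR' b']
    simp only [mem_filter, mem_univ, true_and, hV', hV, mem_image, exists_exists_and_eq_and]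
    constructor
    · rintro ⟨b, hb, h⟩
      exact ⟨b, hb, h.symm⟩
    · rintro ⟨b, hb, h⟩
      exact ⟨b, hb, h.symm⟩
  have hc1 : R'.card = V.card * d := by rw [hR'e, card_fib, hcV]
  have hsub : R ⊆ univ.filter fun b : ZMod p × Fin d => lin j b ∈ V := by
    intro b hb
    simp only [mem_filter, mem_univ, true_and, hV]
    exact mem_image_of_mem _ hb
  have hReq : R = univ.filter fun b : ZMod p × Fin d => lin j b ∈ V := by
    apply eq_of_subset_of_card_le hsub
    rw [card_fib, ← hc1]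
    exact hle
  have hRj : ∀ b b', b ∈ R → lin j b = lin j b' → b' ∈ R := by
    intro b b' hb h
    rw [hReq] at hb ⊢
    simp only [mem_filter, mem_univ, true_and] at hb ⊢
    rw [← h]
    exact hb
  have h0 : 0 < d := by omega
  have h1 : 1 < d := by omega
  have hstep : ∀ c : ZMod p, ((c, (⟨0, h0⟩ : Fin d)) : ZMod p × Fin d) ∈ R →
      ((c + (i - j), (⟨0, h0⟩ : Fin d)) : ZMod p × Fin d) ∈ R := by
    intro c hc
    have h2 : ((c + i, (⟨1, h1⟩ : Fin d)) : ZMod p × Fin d) ∈ R := by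
      apply hR _ _ hc
      simp [lin]
    apply hRj _ _ h2
    simp [lin]
    ring
  obtain ⟨b0, hb0⟩ := hne
  have hc0 : ((lin i b0, (⟨0, h0⟩ : Fin d)) : ZMod p × Fin d) ∈ R := by
    apply hR _ _ hb0
    simp [lin]
  have hn : ∀ m : ℕ,
      ((lin i b0 + (m : ZMod p) * (i - j), (⟨0, h0⟩ : Fin d)) : ZMod p × Fin d) ∈ R := by
    intro m
    induction m with
    | zero => simpa using hc0
    | succ m ih =>
      have := hstep _ ih
      have he : lin i b0 + ((m + 1 : ℕ) : ZMod p) * (i - j)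
          = lin i b0 + (m : ZMod p) * (i - j) + (i - j) := by
        push_cast
        ring
      rw [he]
      exact this
  have hall : ∀ y : ZMod p, ((y, (⟨0, h0⟩ : Fin d)) : ZMod p × Fin d) ∈ R := by
    intro y
    have h3 := hn ((y - lin i b0) / (i - j)).val
    rw [ZMod.natCast_zmod_val, div_mul_cancel₀ _ (sub_ne_zero.mpr hij)] at h3
    have he : lin i b0 + (y - lin i b0) = y := by ring
    rw [he] at h3
    exact h3
  ext b
  simp only [mem_univ, iff_true]
  apply hR _ _ (hall (lin i b))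
  simp [lin]

/-- long nonbacktracking walks do not restrict the labels of their ends -/
theorem pg_mixing (n D p d : ℕ) (hp : p.Prime) (hD : D ≤ p) (hd : 2 ≤ d)
    (φ : Fin n → Fin D → Fin n) (B : Finset (Fin n)) (σ : Fin n → Fin D → Equiv.Perm (ZMod p)) :
    (pg d φ B σ).Mixing (2 * (d * p) + 4) := by
  haveI : Fact p.Prime := ⟨hp⟩
  intro u e hJ hne a b
  set G := pg d φ B σ with hG
  set r := 2 * (d * p) + 4 with hr
  have h0 : 0 < d := by omega
  -- compatibility
  set K : ℕ → (ZMod p × Fin d) → (ZMod p × Fin d) → Prop := fun k x y =>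
    (G.src (e k) = u k → G.rel (e k) x y) ∧ (G.src (e k) = u (k + 1) → G.rel (e k) y x) with hK
  -- basic facts
  have hsrc : ∀ k, G.src (e k) = Sum.inl (φ (e k).1.1 (e k).1.2) := fun k => rfl
  have htgt : ∀ k, G.tgt (e k) = Sum.inr (e k).1.1 := fun k => rfl
  have hrel : ∀ k (x y : ZMod p × Fin d), G.rel (e k) x y ↔
      σ (e k).1.1 (e k).1.2 (lin (((e k).1.2 : ℕ) : ZMod p) y) = x.1 := fun k x y => Iff.rfl
  have hdir1 : ∀ k ≤ r, G.src (e k) = u k → u (k + 1) = Sum.inr (e k).1.1 := by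
    intro k hk h
    rcases hJ k hk with ⟨_, h2⟩ | ⟨_, h2⟩
    · rw [← h2, htgt]
    · exfalso
      rw [← h] at h2
      exact G.ne (e k) h2.symm
  have hdir2 : ∀ k ≤ r, G.src (e k) = u k → ∀ x y, K k x y ↔
      σ (e k).1.1 (e k).1.2 (lin (((e k).1.2 : ℕ) : ZMod p) y) = x.1 := by
    intro k hk h x y
    constructor
    · intro hh
      exact (hrel k x y).1 (hh.1 h)
    · intro hh
      refine ⟨fun _ => (hrel k x y).2 hh, fun h' => ?_⟩
      exfalso
      rw [hdir1 k hk h, hsrc] at h'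
      exact Sum.inl_ne_inr h'
  have hdir3 : ∀ k ≤ r, G.src (e k) ≠ u k → ∀ x y, K k x y ↔
      σ (e k).1.1 (e k).1.2 (lin (((e k).1.2 : ℕ) : ZMod p) x) = y.1 := by
    intro k hk h x y
    have h' : G.src (e k) = u (k + 1) := by
      rcases hJ k hk with ⟨h1, _⟩ | ⟨h1, _⟩
      · exact absurd h1 h
      · exact h1
    constructor
    · intro hh
      exact (hrel k y x).1 (hh.2 h')
    · intro hh
      exact ⟨fun h2 => absurd h2 h, fun _ => (hrel k y x).2 hh⟩
  have hsurj : ∀ k ≤ r, ∀ y, ∃ x, K k x y := by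
    intro k hk y
    by_cases h : G.src (e k) = u k
    · refine ⟨(σ (e k).1.1 (e k).1.2 (lin (((e k).1.2 : ℕ) : ZMod p) y), ⟨0, h0⟩), ?_⟩
      rw [hdir2 k hk h]
    · refine ⟨((σ (e k).1.1 (e k).1.2).symm y.1, ⟨0, h0⟩), ?_⟩
      rw [hdir3 k hk h]
      simp [lin]
  have hsurj' : ∀ k ≤ r, ∀ x, ∃ y, K k x y := by
    intro k hk x
    by_cases h : G.src (e k) = u k
    · refine ⟨((σ (e k).1.1 (e k).1.2).symm x.1, ⟨0, h0⟩), ?_⟩
      rw [hdir2 k hk h]
      simp [lin]
    · refine ⟨(σ (e k).1.1 (e k).1.2 (lin (((e k).1.2 : ℕ) : ZMod p) x), ⟨0, h0⟩), ?_⟩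
      rw [hdir3 k hk h]
  -- reachable labels
  set R : ℕ → Finset (ZMod p × Fin d) := fun k =>
    Nat.rec ({a} : Finset (ZMod p × Fin d))
      (fun k Rk => univ.filter fun y => ∃ x ∈ Rk, K k x y) k with hRdef
  have hR0 : R 0 = {a} := rfl
  have hRs : ∀ k, R (k + 1) = univ.filter fun y => ∃ x ∈ R k, K k x y := fun k => rfl
  have hRm : ∀ k y, y ∈ R (k + 1) ↔ ∃ x ∈ R k, K k x y := by
    intro k y
    rw [hRs k]
    simp
  have hRne : ∀ k ≤ r + 1, (R k).Nonempty := by
    intro k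
    induction k with
    | zero =>
      intro _
      exact ⟨a, by rw [hR0]; simp⟩
    | succ k ih =>
      intro hk
      obtain ⟨x, hx⟩ := ih (by omega)
      obtain ⟨y, hy⟩ := hsurj' k (by omega) x
      exact ⟨y, (hRm k y).2 ⟨x, hx, hy⟩⟩
  have hRuniv : ∀ k ≤ r, R k = univ → R (k + 1) = univ := by
    intro k hk h
    ext y
    simp only [mem_univ, iff_true]
    obtain ⟨x, hx⟩ := hsurj k hk y
    exact (hRm k y).2 ⟨x, by rw [h]; simp, hx⟩
  have hRuniv' : ∀ m k, k + m ≤ r + 1 → R k = univ → R (k + m) = univ := by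
    intro m
    induction m with
    | zero =>
      intro k _ h
      simpa using h
    | succ m ih =>
      intro k hk h
      have h1 := ih k (by omega) h
      have h2 := hRuniv (k + m) (by omega) h1
      exact h2
  -- one round
  have hstep : ∀ k, k + 2 ≤ r → G.src (e k) = u k → G.src (e (k + 2)) = u (k + 2) ∧
      (R (k + 1) = univ ∨ (R (k + 1)).card < (R (k + 3)).card) := by
    intro k hk hd1
    have hu1 := hdir1 k (by omega) hd1
    have hk1 : G.src (e (k + 1)) ≠ u (k + 1) := by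
      rw [hu1, hsrc]
      exact Sum.inl_ne_inr
    have hJ1 : G.src (e (k + 1)) = u (k + 2) ∧ G.tgt (e (k + 1)) = u (k + 1) := by
      rcases hJ (k + 1) (by omega) with ⟨h1, _⟩ | ⟨h1, h2⟩
      · exact absurd h1 hk1
      · exact ⟨h1, h2⟩
    have hw : (e (k + 1)).1.1 = (e k).1.1 := by
      have h2 := hJ1.2
      rw [hu1, htgt] at h2
      exact Sum.inr_injective h2
    have hidx : (e k).1.2 ≠ (e (k + 1)).1.2 := by
      intro h
      apply hne k (by omega)
      apply Subtype.ext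
      exact Prod.ext hw.symm h
    have hij : (((e k).1.2 : ℕ) : ZMod p) ≠ (((e (k + 1)).1.2 : ℕ) : ZMod p) := by
      intro h
      rw [ZMod.natCast_eq_natCast_iff'] at h
      rw [Nat.mod_eq_of_lt (lt_of_lt_of_le (e k).1.2.2 hD),
        Nat.mod_eq_of_lt (lt_of_lt_of_le (e (k + 1)).1.2.2 hD)] at h
      exact hidx (Fin.ext h)
    have hk2 : G.src (e (k + 2)) = u (k + 2) := by
      rcases hJ (k + 2) hk with ⟨h1, _⟩ | ⟨_, h2⟩
      · exact h1
      · exfalso
        rw [← hJ1.1, htgt, hsrc] at h2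
        exact Sum.inl_ne_inr h2.symm
    refine ⟨hk2, ?_⟩
    have hc := hdir2 k (by omega) hd1
    have hc1 := hdir3 (k + 1) (by omega) hk1
    have hc2 := hdir2 (k + 2) hk hk2
    apply growp hd (((e k).1.2 : ℕ) : ZMod p) (((e (k + 1)).1.2 : ℕ) : ZMod p) hij (R (k + 1))
      (hRne (k + 1) (by omega)) ?_ (((e (k + 2)).1.2 : ℕ) : ZMod p)
      ((σ (e (k + 1)).1.1 (e (k + 1)).1.2).trans (σ (e (k + 2)).1.1 (e (k + 2)).1.2).symm)
      (R (k + 3)) ?_
    · intro y y' hy hyy
      rw [hRm] at hy ⊢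
      obtain ⟨x, hx, hxy⟩ := hy
      refine ⟨x, hx, ?_⟩
      rw [hc] at hxy ⊢
      rw [← hyy]
      exact hxy
    · intro y'
      rw [hRm (k + 2)]
      constructor
      · rintro ⟨x, hx, hxy⟩
        rw [hRm (k + 1)] at hx
        obtain ⟨y, hy, hyx⟩ := hx
        refine ⟨y, hy, ?_⟩
        rw [hc2] at hxy
        rw [hc1] at hyx
        rw [Equiv.trans_apply, hyx, ← hxy, Equiv.symm_apply_apply]
      · rintro ⟨y, hy, hyy⟩
        refine ⟨(σ (e (k + 1)).1.1 (e (k + 1)).1.2 (lin (((e (k + 1)).1.2 : ℕ) : ZMod p) y),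
          ⟨0, h0⟩), ?_, ?_⟩
        · rw [hRm (k + 1)]
          refine ⟨y, hy, ?_⟩
          rw [hc1]
        · rw [hc2]
          simp only
          rw [hyy, Equiv.trans_apply, Equiv.apply_symm_apply]
  -- all rounds
  have hcard : Fintype.card (ZMod p × Fin d) = p * d := by
    rw [Fintype.card_prod, ZMod.card, Fintype.card_fin]
  have hiter : ∀ k0 ≤ 1, G.src (e k0) = u k0 → ∀ t ≤ d * p, G.src (e (k0 + 2 * t)) = u (k0 + 2 * t) ∧
      (R (k0 + 2 * t + 1) = univ ∨ t + 1 ≤ (R (k0 + 2 * t + 1)).card) := by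
    intro k0 hk0 hd0 t
    induction t with
    | zero =>
      intro _
      refine ⟨by simpa using hd0, Or.inr ?_⟩
      have := (hRne (k0 + 1) (by omega)).card_pos
      simpa using this
    | succ t ih =>
      intro ht
      obtain ⟨h1, h2⟩ := ih (by omega)
      have h3 := hstep (k0 + 2 * t) (by omega) h1
      have he : k0 + 2 * (t + 1) = k0 + 2 * t + 2 := by ring
      rw [he]
      refine ⟨h3.1, ?_⟩
      rcases h2 with h2 | h2
      · left
        have := hRuniv' 2 (k0 + 2 * t + 1) (by omega) h2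
        exact this
      · rcases h3.2 with h4 | h4
        · left
          exact hRuniv' 2 (k0 + 2 * t + 1) (by omega) h4
        · right
          have h5 : k0 + 2 * t + 3 = k0 + 2 * t + 2 + 1 := by ring
          rw [h5] at h4
          omega
  have hk0 : ∃ k0 ≤ 1, G.src (e k0) = u k0 := by
    by_cases h : G.src (e 0) = u 0
    · exact ⟨0, by omega, h⟩
    · refine ⟨1, le_refl _, ?_⟩
      rcases hJ 0 (by omega) with ⟨h1, _⟩ | ⟨h1, _⟩
      · exact absurd h1 h
      · rcases hJ 1 (by omega) with ⟨h2, _⟩ | ⟨_, h2⟩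
        · exact h2
        · exfalso
          rw [zero_add] at h1
          rw [← h1, htgt, hsrc] at h2
          exact Sum.inl_ne_inr h2.symm
  obtain ⟨k0, hk0, hd0⟩ := hk0
  have hfin : R (k0 + 2 * (d * p) + 1) = univ := by
    rcases (hiter k0 hk0 hd0 (d * p) (le_refl _)).2 with h | h
    · exact h
    · exfalso
      have h1 := Finset.card_le_univ (R (k0 + 2 * (d * p) + 1))
      rw [hcard] at h1
      have h2 : p * d = d * p := mul_comm _ _
      omega
  have hlast : R (r + 1) = univ := by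
    have h := hRuniv' (r + 1 - (k0 + 2 * (d * p) + 1)) (k0 + 2 * (d * p) + 1) (by omega) hfin
    have he : k0 + 2 * (d * p) + 1 + (r + 1 - (k0 + 2 * (d * p) + 1)) = r + 1 := by omega
    rw [he] at h
    exact h
  -- going back
  have hback : ∀ k, ∀ y ∈ R k, ∃ c : ℕ → ZMod p × Fin d, c 0 = a ∧ c k = y ∧
      ∀ j < k, K j (c j) (c (j + 1)) := by
    intro k
    induction k with
    | zero =>
      intro y hy
      rw [hR0, mem_singleton] at hy
      exact ⟨fun _ => a, rfl, hy.symm, fun j hj => absurd hj (Nat.not_lt_zero j)⟩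
    | succ k ih =>
      intro y hy
      obtain ⟨x, hx, hxy⟩ := (hRm k y).1 hy
      obtain ⟨c, hc0, hck, hcj⟩ := ih x hx
      refine ⟨fun m => if m = k + 1 then y else c m, ?_, ?_, ?_⟩
      · simp [hc0]
      · simp
      · intro j hj
        rcases Nat.lt_succ_iff_lt_or_eq.1 hj with h | h
        · have h1 : j ≠ k + 1 := by omega
          have h2 : j + 1 ≠ k + 1 := by omega
          simp only [if_neg h1, if_neg h2]
          exact hcj j h
        · subst h
          have h1 : j ≠ j + 1 := by omega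
          simp only [if_neg h1, if_true]
          rw [hck]
          exact hxy
  obtain ⟨c, hc0, hcr, hcj⟩ := hback (r + 1) b (by rw [hlast]; simp)
  exact ⟨c, hc0, hcr, fun k hk => hcj k (by omega)⟩

theorem pg_surj {n D p d : ℕ} (hd : 1 ≤ d) (φ : Fin n → Fin D → Fin n)
    (B : Finset (Fin n)) (σ : Fin n → Fin D → Equiv.Perm (ZMod p)) :
    (pg d φ B σ).Surj := by
  constructor
  · intro e a
    refine ⟨((σ e.1.1 e.1.2).symm a.1, ⟨0, hd⟩), ?_⟩
    show σ e.1.1 e.1.2 ((σ e.1.1 e.1.2).symm a.1 - _ * (((⟨0, hd⟩ : Fin d) : ℕ) : ZMod p)) = a.1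
    simp
  · intro e b
    exact ⟨(σ e.1.1 e.1.2 (lin (((e.1.2 : ℕ) : ZMod p)) b), b.2), rfl⟩

/-- the edges of the constraint graph and `einφ` -/
theorem pg_ein_le {n D p d : ℕ} (φ : Fin n → Fin D → Fin n) (B : Finset (Fin n))
    (σ : Fin n → Fin D → Equiv.Perm (ZMod p)) (S : Finset (Fin n ⊕ Fin n)) :
    ((pg d φ B σ).ein S).card ≤ (einφ φ B S).card := by
  apply card_le_card_of_injOn Subtype.val
  · intro e he
    have h := mem_ein.1 (mem_coe.1 he)
    exact mem_coe.2 (mem_filter.2 ⟨mem_univ _, e.2, h.2, h.1⟩)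
  · exact Subtype.val_injective.injOn

end Pool.Agent.D0H37.DA
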