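import Pool.Agent.H589R3.DT.Main

set_option autoImplicit false

/-!
Local labellings with prescribed labels at the ends of an edge.
-/

open scoped Classical
open Finset

namespace Pool.Agent.D0H37.DA

open H589DT

theorem xt_all : S_XT := t_XT t_WD t_WI

/-- local labellings with prescribed labels at the ends of one edge -/
theorem presc {U E Λ : Type} [Fintype U] [Fintype E] [Nonempty Λ] (G : CGraph U E Λ)
    (r h g w l : ℕ) (hr : 1 ≤ r) (hh : 3 * r ≤ h) (hS : G.Surj) (hM : G.Mixing r)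
    (hgr : r ≤ g) (hg : 4 * (h + 1) ≤ g) (hG : G.Girth g) (hSp : G.Sparse (2 * h) w)
    (hw : 2 * (h + 1) * (l + 2) + 4 * (h + 1) ≤ w) (e0 : E) (α β : Λ) (hrel : G.rel e0 α β)
    (S : Finset U) (hSl : S.card ≤ l) :
    ∃ τ : U → Λ, τ (G.src e0) = α ∧ τ (G.tgt e0) = β ∧
      ∀ e, (G.src e ∈ S ∨ G.src e = G.src e0 ∨ G.src e = G.tgt e0) →
        (G.tgt e ∈ S ∨ G.tgt e = G.src e0 ∨ G.tgt e = G.tgt e0) → G.SatE τ e := by
  have hh1 : 1 ≤ h := by omega
  have hGr : G.Girth r := fun S h1 h2 => hG S h1 (h2.trans hgr)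
  obtain ⟨X0, hX0⟩ : ∃ X0 : Finset U, X0 = {G.src e0, G.tgt e0} := ⟨_, rfl⟩
  have hX0c : X0.card ≤ 2 := by rw [hX0]; exact card_le_two
  have hX0n : X0.Nonempty := by rw [hX0]; exact ⟨G.src e0, by simp⟩
  have he0 : e0 ∈ G.ein X0 := by
    rw [lo_mem_ein, hX0]
    simp
  have hein : (G.ein X0).card < 2 := (hG X0 hX0n (by omega)).trans_le hX0c
  have hein1 : 1 ≤ (G.ein X0).card := card_pos.2 ⟨e0, he0⟩
  have huniq : ∀ e ∈ G.ein X0, e = e0 := by
    intro e he
    exact card_le_one.1 (by omega) e he e0 he0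
  obtain ⟨τ0, hτ0⟩ : ∃ τ0 : U → Λ, τ0 = fun u => if u = G.src e0 then α else β := ⟨_, rfl⟩
  have hτs : τ0 (G.src e0) = α := by rw [hτ0]; simp
  have hτt : τ0 (G.tgt e0) = β := by rw [hτ0]; simp [(G.ne e0).symm]
  have hsat0 : G.SatOn X0 τ0 := by
    intro e he
    rw [huniq e he]
    unfold CGraph.SatE
    rw [hτs, hτt]
    exact hrel
  have hk2 : 2 * (h + 1) * X0.card ≤ 4 * (h + 1) := by
    calc 2 * (h + 1) * X0.card ≤ 2 * (h + 1) * 2 := Nat.mul_le_mul_left _ hX0c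
      _ = 4 * (h + 1) := by ring
  -- the first closed set
  obtain ⟨X1, h11, h12, h13⟩ := t_CL U E Λ G h w hh1 hSp X0 (by omega)
  obtain ⟨τ1, ht11, ht12⟩ := xt_all U E Λ G r h hr hh hS hM hGr X0 (X1 \ X0) disjoint_sdiff (by
    intro Z hZ
    have h1 : X0 ∪ Z ⊆ X1 := union_subset h11 (hZ.trans sdiff_subset)
    have h2 := hG (X0 ∪ Z) (hX0n.mono subset_union_left)
      ((card_le_card h1).trans (by omega))
    have h3 := card_union_le X0 Z
    have h4 : Z.card ≤ Z.card + Z.card / h := Nat.le_add_right _ _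
    calc (G.ein (X0 ∪ Z)).card ≤ (G.ein X0).card + Z.card := by omega
      _ ≤ _ := Nat.add_le_add_left h4 _) τ0 hsat0
  have hsat1 : G.SatOn X1 τ1 := by
    intro e he
    apply ht12 e
    apply lo_ein_mono G _ he
    intro u hu
    rw [mem_union, mem_sdiff]
    by_cases hx : u ∈ X0
    · exact Or.inl hx
    · exact Or.inr ⟨hu, hx⟩
  -- the second closed set
  have hSX : 2 * (h + 1) * (S ∪ X0).card ≤ 2 * (h + 1) * (l + 2) :=
    Nat.mul_le_mul_left _ ((card_union_le _ _).trans (by omega))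
  obtain ⟨X2, h21, h22, _⟩ := t_CL U E Λ G h w hh1 hSp (S ∪ X0) (by omega)
  obtain ⟨τ2, ht21, ht22⟩ := xt_all U E Λ G r h hr hh hS hM hGr X1 (X2 \ X1) disjoint_sdiff (by
    intro Z hZ
    apply h13 Z (Finset.disjoint_of_subset_right hZ disjoint_sdiff)
    have h6 : Z.card ≤ X2.card := Finset.card_le_card (hZ.trans Finset.sdiff_subset)
    omega) τ1 hsat1
  have hmem : ∀ u ∈ X0, τ2 u = τ0 u := fun u hu => (ht21 u (h11 hu)).trans (ht11 u hu)
  refine ⟨τ2, ?_, ?_, ?_⟩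
  · rw [hmem _ (by rw [hX0]; simp), hτs]
  · rw [hmem _ (by rw [hX0]; simp), hτt]
  · have hin : ∀ u, (u ∈ S ∨ u = G.src e0 ∨ u = G.tgt e0) → u ∈ X1 ∪ (X2 \ X1) := by
      intro u hu
      have hu2 : u ∈ S ∪ X0 := by
        rw [hX0]
        simp only [mem_union, mem_insert, mem_singleton]
        exact hu
      rw [mem_union, mem_sdiff]
      by_cases hx : u ∈ X1
      · exact Or.inl hx
      · exact Or.inr ⟨h21 hu2, hx⟩
    intro e h1 h2
    exact ht22 e ((lo_mem_ein _ _ _).2 ⟨hin _ h1, hin _ h2⟩)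

end Pool.Agent.D0H37.DA
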