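import Pool.Agent.D0H37.DA.Game
import Pool.Agent.D0H37.DA.Presc
import Pool.Agent.D0H57.DT1.Low

set_option autoImplicit false

/-!
The hard games of permutations.
-/

open scoped Classical
open Finset

namespace Pool.Agent.D0H37.DA

open H589DT H589DT.MX Pool.Agent.D0H57.DT1

/-- no narrow refutation -/
theorem pgm_narrow {n D p : ℕ} [NeZero p] {d : ℕ} [NeZero d] {φ : Fin n → Fin D → Fin n}
    {B : Finset (Fin n)} (hφ : ∀ w i j, w ∉ B → φ w i = φ w j → i = j)
    (σ : Fin n → Fin D → Equiv.Perm (ZMod p)) {l : ℕ}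
    (F : Local (Fin n ⊕ Fin n) (ZMod p × Fin d) l)
    (hF : ∀ S ρ, F.C S ρ → (pg d φ B σ).SatOn S ρ) {k : ℕ} (hk : k + 1 ≤ l) :
    ¬ Narrow (gameCnf (pgm d φ B σ)) k ∅ := by
  intro hN
  have h := no_narrow F (gameCnf (pgm d φ B σ))
    (Sum.elim (fun x => Sum.inl x.1) fun x => Sum.inr x.1)
    (fun (a : ZMod p × Fin d) => Sum.elim (fun x => eV p a.1 = x.2) fun x => eW p d a = x.2)
    ?_ hk hN
  · obtain ⟨ρ, hρ⟩ := F.empty
    obtain ⟨a, ha, _⟩ := h ∅ ρ hρ (fun a ha => absurd ha (notMem_empty _))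
    exact notMem_empty _ ha
  · intro C hC S ρ hS hSC
    have hsat := hF S ρ hS
    rcases hC with ⟨v, rfl⟩ | ⟨w, rfl⟩ | ⟨v, a, a', haa, rfl⟩ | ⟨w, b, b', hbb, rfl⟩ |
      ⟨v, w, a, b, hadj, hmap, rfl⟩
    · refine ⟨(Sum.inl (v, eV p (ρ (Sum.inl v)).1), true), ?_, ?_⟩
      · exact mem_left _ _
      · simp
    · refine ⟨(Sum.inr (w, eW p d (ρ (Sum.inr w))), true), ?_, ?_⟩
      · exact mem_right _ _
      · simp
    · by_cases h1 : eV p (ρ (Sum.inl v)).1 = a
      · refine ⟨(Sum.inl (v, a'), false), by simp, ?_⟩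
        simp only [Sum.elim_inl, Bool.false_eq_true, iff_false]
        intro h2
        exact haa (h1.symm.trans h2)
      · refine ⟨(Sum.inl (v, a), false), by simp, ?_⟩
        simp only [Sum.elim_inl, Bool.false_eq_true, iff_false]
        exact h1
    · by_cases h1 : eW p d (ρ (Sum.inr w)) = b
      · refine ⟨(Sum.inr (w, b'), false), by simp, ?_⟩
        simp only [Sum.elim_inr, Bool.false_eq_true, iff_false]
        intro h2
        exact hbb (h1.symm.trans h2)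
      · refine ⟨(Sum.inr (w, b), false), by simp, ?_⟩
        simp only [Sum.elim_inr, Bool.false_eq_true, iff_false]
        exact h1
    · have hv : Sum.inl v ∈ S := hSC (Sum.inl (v, a), false) (by simp)
      have hw : Sum.inr w ∈ S := hSC (Sum.inr (w, b), false) (by simp)
      have h3 := pgm_satE hφ σ hsat v w hv hw hadj
      by_cases h1 : eV p (ρ (Sum.inl v)).1 = a
      · refine ⟨(Sum.inr (w, b), false), by simp, ?_⟩
        simp only [Sum.elim_inr, Bool.false_eq_true, iff_false]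
        intro h2
        rw [h2, h1] at h3
        exact hmap h3
      · refine ⟨(Sum.inl (v, a), false), by simp, ?_⟩
        simp only [Sum.elim_inl, Bool.false_eq_true, iff_false]
        exact h1

/-- choice of the prime and of the degree -/
theorem choice_pm (d k : ℕ) (hd : 2 ≤ d) : ∃ p D m : ℕ, p.Prime ∧ p = 2 * m + 1 ∧ 2 ^ k ≤ m ∧
    D ≤ p ∧ d * p ^ 2 < 2 ^ D := by
  obtain ⟨p, D, hp, hkp, hDp, hD⟩ := choice_p d (k + 2) hd
  have h4 : 4 ≤ p := by
    have : 1 ≤ 2 ^ k := Nat.one_le_two_pow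
    rw [pow_add] at hkp
    omega
  have hodd : p % 2 = 1 := by
    rcases hp.eq_two_or_odd with h | h
    · omega
    · exact h
  refine ⟨p, D, p / 2, hp, by omega, ?_, hDp, hD⟩
  rw [pow_add] at hkp
  omega

/-- the games of permutations -/
theorem hard_perms (d : ℕ) (hd : 2 ≤ d) (ε : ℝ) (hε : 0 < ε) :
    ∃ (p m D q n0 : ℕ) (_ : NeZero p), p = 2 * m + 1 ∧ 1 ≤ q ∧ ∀ n : ℕ, n0 ≤ n →
      ∃ (φ : Fin n → Fin D → Fin n) (B : Finset (Fin n))
        (σ : Fin n → Fin D → Equiv.Perm (ZMod p)),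
        (∀ w i j, w ∉ B → φ w i = φ w j → i = j) ∧ (∀ w i x, hh p (σ w i x) = hh p x) ∧
        DNo ε (pgm d φ B σ) ∧
        (∀ l : ℕ, q * l ≤ n → ∃ F : Local (Fin n ⊕ Fin n) (ZMod p × Fin d) l,
          ∀ S ρ, F.C S ρ → (pg d φ B σ).SatOn S ρ) ∧
        ∀ l : ℕ, 4 ≤ l → q * l ≤ n → ∀ (e0 : EE D B) (α β : ZMod p × Fin d),
          (pg d φ B σ).rel e0 α β → ∀ S : Finset (Fin n ⊕ Fin n), S.card ≤ l →
          ∃ τ, τ ((pg d φ B σ).src e0) = α ∧ τ ((pg d φ B σ).tgt e0) = β ∧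
            ∀ e, ((pg d φ B σ).src e ∈ S ∨ (pg d φ B σ).src e = (pg d φ B σ).src e0 ∨
                (pg d φ B σ).src e = (pg d φ B σ).tgt e0) →
              ((pg d φ B σ).tgt e ∈ S ∨ (pg d φ B σ).tgt e = (pg d φ B σ).src e0 ∨
                (pg d φ B σ).tgt e = (pg d φ B σ).tgt e0) → (pg d φ B σ).SatE τ e := by
  obtain ⟨p, D, m, hp, hpm, hkm, hDp, hD⟩ := choice_pm d (Nat.ceil (8 / ε)) hd
  set k := Nat.ceil (8 / ε) with hk
  have : NeZero p := ⟨hp.pos.ne'⟩
  have : NeZero d := ⟨by omega⟩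
  set r := 2 * (d * p) + 4 with hr
  set h := 3 * r with hh3
  have hD1 : 1 ≤ D := by
    by_contra h0
    have : D = 0 := by omega
    rw [this, pow_zero] at hD
    have : 1 ≤ d * p ^ 2 := Nat.mul_pos (by omega) (pow_pos hp.pos 2)
    omega
  obtain ⟨n0, hn0⟩ := ex_lin D (2 * h) (4 * (h + 1)) (by omega)
  refine ⟨p, m, D, (8 * (6 * 2 ^ D)) ^ (2 * h) * (4 * (h + 1)), n0 + Nat.ceil (4 / ε) + 1,
    inferInstance, hpm, Nat.mul_pos (Nat.pow_pos (by positivity)) (by omega), ?_⟩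
  intro n hn
  obtain ⟨φ, B, hB, hsp, hgi⟩ := hn0 n (by omega)
  have hφ := phi_inj (fun S hS hS2 => hgi S hS (hS2.trans (by omega)))
  have hEE := card_EE (D := D) B
  have hE2 : n * D ≤ 2 * Fintype.card (EE D B) := by
    rw [hEE]
    calc n * D ≤ (2 * (n - B.card)) * D := Nat.mul_le_mul_right _ (by omega)
      _ = _ := by ring
  set EC := Fintype.card (EE D B) with hEC
  have hEC1 : 1 ≤ EC := by
    have : 1 ≤ n * D := Nat.mul_pos (by omega) hD1
    omega
  set K := Nat.ceil (ε * EC / 2) with hK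
  have hpK : (d * p ^ 2) ^ n * 2 ^ (D * n) < m ^ K := by
    have h1 : 2 * (D * n) ≤ k * K := by
      have h2 : (8 / ε : ℝ) ≤ k := Nat.le_ceil _
      have h3 : ε * EC / 2 ≤ (K : ℝ) := Nat.le_ceil _
      have h4 : (4 * EC : ℝ) ≤ k * K := by
        calc (4 * EC : ℝ) = (8 / ε) * (ε * EC / 2) := by field_simp; ring
          _ ≤ k * K := mul_le_mul h2 h3 (by positivity) (by positivity)
      have h5 : (4 * EC : ℕ) ≤ k * K := by exact_mod_cast h4
      calc 2 * (D * n) = 2 * (n * D) := by ring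
        _ ≤ 2 * (2 * EC) := Nat.mul_le_mul_left _ hE2
        _ = 4 * EC := by ring
        _ ≤ _ := h5
    have hn1 : n ≠ 0 := by omega
    calc (d * p ^ 2) ^ n * 2 ^ (D * n) < (2 ^ D) ^ n * 2 ^ (D * n) := by
          apply Nat.mul_lt_mul_of_pos_right _ (by positivity)
          exact Nat.pow_lt_pow_left hD hn1
      _ = 2 ^ (2 * (D * n)) := by rw [← pow_mul, two_mul, pow_add]
      _ ≤ 2 ^ (k * K) := Nat.pow_le_pow_right (by norm_num) h1
      _ = (2 ^ k) ^ K := by rw [pow_mul]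
      _ ≤ m ^ K := Nat.pow_le_pow_left hkm K
  obtain ⟨σ, hσ, hs⟩ := exists_perms n D p d K m φ B (pres (hh p)) (pres_pos _)
    (fun a y => by
      have h1 := pres_key (hh p) m (hh_class p m hpm) a y
      have h2 : ((pres (hh p)).filter fun σ => σ a = y).card * m ≤ (pres (hh p)).card := by
        refine le_trans (Nat.mul_le_mul_right _ (le_of_eq ?_)) h1
        congr 1
        ext σ
        simp only [mem_filter]
      exact h2) hpK
  have hσh : ∀ w i x, hh p (σ w i x) = hh p x := by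
    intro w i
    have h1 := hσ w i
    unfold pres at h1
    rw [mem_filter] at h1
    exact h1.2
  have hGgirth : (pg d φ B σ).Girth (4 * (h + 1)) := fun S hS hSr =>
    lt_of_le_of_lt (pg_ein_le φ B σ S) (hgi S hS hSr)
  have hGsparse : ∀ l, (8 * (6 * 2 ^ D)) ^ (2 * h) * (4 * (h + 1)) * l ≤ n →
      (pg d φ B σ).Sparse (2 * h) (4 * (h + 1) * l) := by
    intro l hl S hS
    refine (pg_ein_le φ B σ S).trans (hsp S ?_)
    calc (8 * (6 * 2 ^ D)) ^ (2 * h) * S.card ≤ (8 * (6 * 2 ^ D)) ^ (2 * h) *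
          (4 * (h + 1) * l) := Nat.mul_le_mul_left _ hS
      _ = (8 * (6 * 2 ^ D)) ^ (2 * h) * (4 * (h + 1)) * l := by ring
      _ ≤ n := hl
  refine ⟨φ, B, σ, hφ, hσh, ?_, ?_, ?_⟩
  · intro A M
    have h1 := pgm_sat hφ σ A M
    have h2 := hs (fun w => (eW p d).symm (M w)) (fun v => (eV p).symm (A v))
    have h3 : (univ.filter fun e : Fin n × Fin n => (pgm d φ B σ).adj e.1 e.2 ∧
      (pgm d φ B σ).map e.1 e.2 (M e.2) = A e.1).card < K := by
      refine lt_of_le_of_lt h1 ?_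
      exact h2
    rw [pgm_edges hφ σ, ← hEC]
    have h4 : (K : ℝ) < ε * EC / 2 + 1 := Nat.ceil_lt_add_one (by positivity)
    have h5 : (((univ.filter fun e : Fin n × Fin n => (pgm d φ B σ).adj e.1 e.2 ∧
      (pgm d φ B σ).map e.1 e.2 (M e.2) = A e.1).card : ℕ) : ℝ) + 1 ≤ K := by exact_mod_cast h3
    have h6 : (1 : ℝ) ≤ EC := by exact_mod_cast hEC1
    have h7 : 0 < ε * EC := by positivity
    linarith
  · intro l hl
    exact lo_all _ _ _ (pg d φ B σ) r h (4 * (h + 1) * l) l (by omega) le_rfl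
      (pg_surj (by omega) φ B σ) (pg_mixing n D p d hp hDp hd φ B σ)
      (fun S h1 h2 => hGgirth S h1 (h2.trans (by omega))) (hGsparse l hl) le_rfl
  · intro l hl4 hl e0 α β hrel S hS
    refine presc (pg d φ B σ) r h (4 * (h + 1)) (4 * (h + 1) * l) l (by omega) le_rfl
      (pg_surj (by omega) φ B σ) (pg_mixing n D p d hp hDp hd φ B σ) (by omega) le_rfl hGgirth
      (hGsparse l hl) ?_ e0 α β hrel S hS
    nlinarith

end Pool.Agent.D0H37.DA
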